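import Pool.Agent.Helper6.NX.GoalsB

/-! Project NX (MP_75608d_al), packet FW: near invariance of the conditional entropies. -/

set_option linter.unusedVariables false

namespace Pool.Agent.Helper83.NX

open Equiv Filter Topology
open Pool.Agent.Helper6.NX

variable {n : ℕ}

theorem ent_congr (hl2 : S_L2) {Ω α β : Type} [Fintype Ω] (P : Ω → ℝ) (X : Ω → α) (Y : Ω → β)
    (hP : IsLaw P) (h : ∀ ω ω', X ω = X ω' ↔ Y ω = Y ω') : ent P X = ent P Y :=
  le_antisymm (hl2 Ω β α P Y X hP (fun ω ω' _ _ e => (h ω ω').2 e))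
    (hl2 Ω α β P X Y hP (fun ω ω' _ _ e => (h ω ω').1 e))

theorem cent_congr (hl2 : S_L2) {Ω α β γ : Type} [Fintype Ω] (P : Ω → ℝ) (X : Ω → α) (Y : Ω → β)
    (Z : Ω → γ) (hP : IsLaw P) (h : ∀ ω ω', Y ω = Y ω' ↔ Z ω = Z ω') :
    cent P X Y = cent P X Z := by
  unfold cent
  rw [ent_congr hl2 P Y Z hP h,
    ent_congr hl2 P (fun ω => (X ω, Y ω)) (fun ω => (X ω, Z ω)) hP]
  intro ω ω'
  simp only [Prod.mk.injEq, h]

theorem law_mul_right (ν : Perm (Fin n) → ℝ) (w g : Perm (Fin n)) :
    law ν (fun h => h * w) g = ν (g * w⁻¹) := by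
  unfold law
  rw [Finset.sum_eq_single (g * w⁻¹)]
  · simp
  · intro b _ hb
    rw [if_neg]
    intro h
    exact hb (eq_mul_inv_of_mul_eq h)
  · intro h
    exact absurd (Finset.mem_univ _) h

theorem law_mul3 (ν : Perm (Fin n) → ℝ) (w g : Perm (Fin n)) :
    law (prd ν ν) (fun z => z.1 * w * z.2) g = ∑ b, ν (g * b⁻¹ * w⁻¹) * ν b := by
  unfold law prd
  rw [Fintype.sum_prod_type_right]
  apply Finset.sum_congr rfl
  intro b _
  rw [Finset.sum_eq_single (g * b⁻¹ * w⁻¹)]
  · simp
  · intro a _ ha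
    rw [if_neg]
    intro h
    apply ha
    rw [← h]
    simp [mul_assoc]
  · intro h
    exact absurd (Finset.mem_univ _) h

theorem isLaw_prd (ν : Perm (Fin n) → ℝ) (h : IsLaw ν) : IsLaw (prd ν ν) := by
  refine ⟨fun z => mul_nonneg (h.1 _) (h.1 _), ?_⟩
  unfold prd
  rw [Fintype.sum_prod_type]
  simp only [← Finset.mul_sum, h.2, mul_one]

theorem res_eq_iff (D : Finset (Fin n)) (h h' : Perm (Fin n)) :
    res D h = res D h' ↔ ∀ p ∈ D, h p = h' p := by
  unfold res
  constructor
  · intro e p hp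
    have := congrFun e p
    simpa [hp] using this
  · intro e
    funext p
    by_cases hp : p ∈ D
    · simp [hp, e p hp]
    · simp [hp]

theorem thmFW (hl2 : S_L2) (hl5 : S_L5) (hl9 : S_L9) (hvp : S_VP) : S_FW := by
  intro n ν w θ hn hν hθ p D
  have hθ0 : 0 ≤ θ := le_trans (Finset.sum_nonneg fun _ _ => abs_nonneg _) hθ
  have hn2 : 2 ≤ n := by omega
  have hlog : 1 ≤ Real.log n := by
    rw [Real.le_log_iff_exp_le (by positivity)]
    have h1 := Real.exp_one_lt_d9
    have h2 : (3 : ℝ) ≤ n := by exact_mod_cast hn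
    linarith
  have hlog0 : 0 < Real.log n := by linarith
  have hs : √(θ / 2) ≤ √θ := Real.sqrt_le_sqrt (by linarith)
  have hs0 : 0 ≤ √(θ / 2) := Real.sqrt_nonneg _
  have hbd : (θ / 2) * Real.log n + 2 * √(θ / 2) ≤ Real.log n * (θ + 2 * √θ) := by
    have e1 : √(θ / 2) ≤ Real.log n * √θ := by
      have := mul_le_mul_of_nonneg_right hlog (Real.sqrt_nonneg θ)
      linarith
    have e2 : (θ / 2) * Real.log n ≤ Real.log n * θ := by nlinarith
    nlinarith
  have cont : ∀ (P Q : Perm (Fin n) → ℝ), IsLaw P → IsLaw Q → ∑ g, |P g - Q g| ≤ θ →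
      cent P (fun h => h p) (res D) ≤
        cent Q (fun h => h p) (res D) + Real.log n * (θ + 2 * √θ) := by
    intro P Q hP hQ hPQ
    have := hl9 (Perm (Fin n)) (Fin n) (Fin n → Option (Fin n)) P Q (fun h => h p) (res D)
      (θ / 2) n (fun _ => Finset.univ) hP hQ (by linarith) (by omega) (by simp) (by simp)
    linarith
  have hvpν := hvp n ν hn2 hν
  refine ⟨?_, ?_⟩
  · have hlw := (hl5 (Perm (Fin n)) (Perm (Fin n)) (Fin n) ν (fun h => h * w) (fun h => h p) hν).1
    have e1 : cent (law ν (fun h => h * w)) (fun h => h p) (res D) =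
        cent ν (fun h => h (w p)) (res (im w D)) := by
      have e2 : cent (law ν (fun h => h * w)) (fun h => h p) (res D) =
          cent ν (fun h => h (w p)) (fun h => res D (h * w)) := by
        unfold cent
        rw [(hl5 (Perm (Fin n)) (Perm (Fin n)) (Fin n → Option (Fin n)) ν (fun h => h * w)
          (res D) hν).2.2.1,
          (hl5 (Perm (Fin n)) (Perm (Fin n)) (Fin n × (Fin n → Option (Fin n))) ν
            (fun h => h * w) (fun h => (h p, res D h)) hν).2.2.1]
        rfl
      rw [e2]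
      apply cent_congr hl2 _ _ _ _ hν
      intro h h'
      rw [res_eq_iff, res_eq_iff]
      unfold im
      simp [Perm.mul_apply]
    have hsum : ∑ g, |law ν (fun h => h * w) g - ν g| ≤ θ := by
      simpa only [law_mul_right] using hθ
    have hsum' : ∑ g, |ν g - law ν (fun h => h * w) g| ≤ θ := by
      simpa only [abs_sub_comm] using hsum
    have h1 := cont _ _ hlw hν hsum
    have h2 := cont _ _ hν hlw hsum'
    rw [e1] at h1 h2
    rw [hvpν.1, hvpν.1, ← sub_div, abs_div, abs_of_pos hlog0, div_le_iff₀ hlog0, abs_le]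
    constructor <;> linarith
  · have hp := isLaw_prd ν hν
    have e2 : cent (prd ν ν) (fun z => z.1 (w (z.2 p))) (fun z => res D (z.1 * w * z.2)) =
        cent (law (prd ν ν) (fun z => z.1 * w * z.2)) (fun h => h p) (res D) := by
      unfold cent
      rw [(hl5 (Perm (Fin n) × Perm (Fin n)) (Perm (Fin n)) (Fin n → Option (Fin n)) (prd ν ν)
          (fun z => z.1 * w * z.2) (res D) hp).2.2.1,
          (hl5 (Perm (Fin n) × Perm (Fin n)) (Perm (Fin n)) (Fin n × (Fin n → Option (Fin n)))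
            (prd ν ν) (fun z => z.1 * w * z.2) (fun h => (h p, res D h)) hp).2.2.1]
      rfl
    have hlP := (hl5 (Perm (Fin n) × Perm (Fin n)) (Perm (Fin n)) (Fin n) (prd ν ν)
      (fun z => z.1 * w * z.2) (fun h => h p) hp).1
    have hlQ : IsLaw (conv ν ν) := (hl5 (Perm (Fin n) × Perm (Fin n)) (Perm (Fin n)) (Fin n)
      (prd ν ν) (fun z => z.1 * z.2) (fun h => h p) hp).1
    have hQ : ∀ g, conv ν ν g = ∑ b, ν (g * b⁻¹) * ν b := by
      intro g
      have := law_mul3 ν 1 g
      simpa [conv] using this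
    have hsum : ∑ g, |law (prd ν ν) (fun z => z.1 * w * z.2) g - conv ν ν g| ≤ θ := by
      calc ∑ g, |law (prd ν ν) (fun z => z.1 * w * z.2) g - conv ν ν g|
          ≤ ∑ g, ∑ b, |ν (g * b⁻¹ * w⁻¹) - ν (g * b⁻¹)| * ν b := by
            apply Finset.sum_le_sum
            intro g _
            rw [law_mul3, hQ, ← Finset.sum_sub_distrib]
            refine (Finset.abs_sum_le_sum_abs _ _).trans (Finset.sum_le_sum ?_)
            intro b _
            rw [← sub_mul, abs_mul, abs_of_nonneg (hν.1 b)]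
        _ = ∑ b, (∑ g, |ν (g * b⁻¹ * w⁻¹) - ν (g * b⁻¹)|) * ν b := by
            rw [Finset.sum_comm]
            simp only [Finset.sum_mul]
        _ = ∑ b, (∑ g, |ν (g * w⁻¹) - ν g|) * ν b := by
            apply Finset.sum_congr rfl
            intro b _
            congr 1
            exact Fintype.sum_equiv (Equiv.mulRight b⁻¹) _ _ (fun g => rfl)
        _ ≤ ∑ b, θ * ν b := by
            apply Finset.sum_le_sum
            intro b _
            exact mul_le_mul_of_nonneg_right hθ (hν.1 b)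
        _ = θ := by rw [← Finset.mul_sum, hν.2, mul_one]
    have h1 := cont _ _ hlP hlQ hsum
    have hvpQ := (hvp n (conv ν ν) hn2 hlQ).1 p D
    rw [e2, hvpQ, mul_add, mul_div_cancel₀ _ hlog0.ne']
    exact h1

end Pool.Agent.Helper83.NX
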